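import Pool.Agent.H37.PV.Fac

/-!
PO Alg: `f ^ 2 + f + 1` is not a constant times a square, and valuations at an irreducible factor of odd multiplicity.
-/

set_option autoImplicit false

namespace Pool.Agent.H3.PO

open Polynomial Pool.Agent.H37.PV

/-- the degree of `f ^ 2 + f + 1` -/
theorem natDegree_F (f : ℤ[X]) (hf : 1 ≤ f.natDegree) : (f ^ 2 + f + 1).natDegree = 2 * f.natDegree := by
  have h1 : (f ^ 2).natDegree = 2 * f.natDegree := natDegree_pow f 2
  have h2 : (f + 1).natDegree < (f ^ 2).natDegree := by
    refine lt_of_le_of_lt (natDegree_add_le _ _) ?_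
    rw [natDegree_one, h1]
    omega
  rw [add_assoc, natDegree_add_eq_left_of_natDegree_lt h2, h1]

theorem not_const_sq (f : ℤ[X]) (hf : 1 ≤ f.natDegree) (c : ℤ) (g : ℤ[X]) : f ^ 2 + f + 1 ≠ C c * g ^ 2 := by
  intro h
  have h1 := congrArg derivative h
  have h2 : (2 * f + 1) * derivative f = g * (2 * C c * derivative g) := by
    have h3 : derivative (f ^ 2 + f + 1) = (2 * f + 1) * derivative f := by
      simp only [derivative_add, derivative_one, derivative_pow]
      push_cast
      simp
      ring
    have h4 : derivative (C c * g ^ 2) = g * (2 * C c * derivative g) := by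
      simp only [derivative_mul, derivative_C, derivative_pow]
      push_cast
      simp
      ring
    rw [← h3, ← h4]
    exact h1
  have h5 : g ∣ 3 * derivative f := by
    refine ⟨4 * C c * g * derivative f - (2 * f + 1) * (2 * C c * derivative g), ?_⟩
    linear_combination (-(2 * f + 1)) * h2 + (4 * derivative f) * h
  have h6 : f.natDegree ≤ g.natDegree := by
    have h7 := natDegree_F f hf
    rw [h] at h7
    have h8 : (C c * g ^ 2).natDegree ≤ (g ^ 2).natDegree := natDegree_C_mul_le _ _
    rw [natDegree_pow] at h8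
    omega
  have h7 : (3 * derivative f).natDegree < g.natDegree := by
    have h8 : (3 * derivative f).natDegree ≤ (derivative f).natDegree := by
      have h9 : (3 : ℤ[X]) = C 3 := by simp
      rw [h9]
      exact natDegree_C_mul_le _ _
    have h9 := natDegree_derivative_le f
    omega
  have h8 := eq_zero_of_dvd_of_natDegree_lt h5 h7
  have h9 : derivative f = 0 := by
    rcases mul_eq_zero.1 h8 with h10 | h10
    · exfalso
      have h11 : (3 : ℤ[X]) ≠ 0 := by
        have : (3 : ℤ[X]) = C 3 := by simp
        rw [this, Ne, C_eq_zero]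
        norm_num
      exact h11 h10
    · exact h10
  have h10 := derivative_eq_zero.1 h9
  omega

/-- the valuation of a value at a simple zero modulo `p` of a factor of odd multiplicity -/
theorem odd_val (f h k : ℤ[X]) (e : ℕ) (he : Odd e) (hfe : f = h ^ e * k) (p : ℕ) (hp : p.Prime) (m : ℤ) (n : ℕ)
    (hn : (n : ℤ) = f.eval m) (hn0 : n ≠ 0) (h1 : (p : ℤ) ∣ h.eval m) (h2 : ¬ (p : ℤ) ^ 2 ∣ h.eval m)
    (h3 : ¬ (p : ℤ) ∣ k.eval m) : Odd (padicValNat p n) := by
  have hfm : (n : ℤ) = h.eval m ^ e * k.eval m := by rw [hn, hfe]; simp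
  have he0 : e ≠ 0 := by
    rintro rfl
    exact (Nat.not_odd_zero) he
  have hpf : Fact p.Prime := ⟨hp⟩
  have hn0' : (n : ℤ) ≠ 0 := by exact_mod_cast hn0
  have hh0 : h.eval m ≠ 0 := by
    intro h5
    rw [hfm, h5, zero_pow he0, zero_mul] at hn0'
    exact hn0' rfl
  have hk0 : k.eval m ≠ 0 := by
    intro h5
    rw [hfm, h5, mul_zero] at hn0'
    exact hn0' rfl
  have hv1 : padicValInt p (h.eval m) = 1 := by
    have h5 : 1 ≤ padicValInt p (h.eval m) := by
      rw [← Nat.not_lt, Nat.lt_one_iff]
      intro h6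
      rcases padicValInt.eq_zero_iff.1 h6 with h7 | h7 | h7
      · exact hp.one_lt.ne' h7
      · exact hh0 h7
      · exact h7 h1
    have h6 : ¬ 2 ≤ padicValInt p (h.eval m) := by
      intro h7
      apply h2
      have h8 := (padicValInt_dvd_iff 2 (h.eval m)).2 (Or.inr h7)
      exact_mod_cast h8
    omega
  have hv2 : padicValInt p (k.eval m) = 0 := padicValInt.eq_zero_of_not_dvd h3
  have hv3 : padicValInt p (n : ℤ) = e := by
    rw [hfm, padicValInt.mul (pow_ne_zero _ hh0) hk0, hv2]
    have h5 : ∀ j : ℕ, padicValInt p (h.eval m ^ j) = j := by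
      intro j
      induction j with
      | zero => simp
      | succ j ih => rw [pow_succ, padicValInt.mul (pow_ne_zero _ hh0) hh0, ih, hv1]
    rw [h5 e, add_zero]
  rw [padicValInt.of_nat] at hv3
  rw [hv3]
  exact he

end Pool.Agent.H3.PO
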