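import Pool.Agent.H3.PO.Rad
import Pool.Agent.H24.FD.UDsum

/-!
PO Even: for every number field `K` and every prime `p` the sum of `1 / q` over the primes `q` with a place of degree one in `K` for
which the order of `p` modulo `q` is even diverges.

PROOF. Let `d = [K : ℚ]`, `n = 2 ^ d`. Each `K_i = K(ζ_(2^i))`, `i ≤ d`, has `Σ np K_i q * q^(-s) = log (1 / (s - 1)) + O(1)`, and
`Σ_i np K_i q ≤ np K q * #{y : y ^ n = 1}`. If the order of `p` modulo `q` is odd then `#{y : y ^ n = 1} ≤ #{y : y ^ n = p} ≤ np R q`,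
`R = ℚ(p^(1/n))`, and `np K q ≤ d`. So without the other primes `(d + 1) log ≤ d log + O(1)`.
The first part is copied from `Pool/Agent/H37/PV/Div.lean` (private there).
-/

set_option autoImplicit false

namespace Pool.Agent.H3.PO

open NumberField Pool.Agent.H24.FD

/-- the term of the Dirichlet sum -/
private noncomputable def tG (G : ℕ → Prop) (s : ℝ) (p : Nat.Primes) : ℝ :=
  open Classical in if G p then ((p : ℕ) : ℝ) ^ (-s) else 0

private theorem dS_eq (G : ℕ → Prop) (s : ℝ) : dS G s = ∑' p : Nat.Primes, tG G s p := rfl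

private theorem tG_summable (G : ℕ → Prop) {s : ℝ} (hs : 1 < s) : Summable (tG G s) :=
  dS_summable G hs

private theorem tG_pos {G : ℕ → Prop} (s : ℝ) {p : Nat.Primes} (h : G p) :
    tG G s p = ((p : ℕ) : ℝ) ^ (-s) := if_pos h

private theorem tG_neg {G : ℕ → Prop} (s : ℝ) {p : Nat.Primes} (h : ¬ G p) : tG G s p = 0 :=
  if_neg h

private theorem tG_nonneg (G : ℕ → Prop) (s : ℝ) (p : Nat.Primes) : 0 ≤ tG G s p := by
  by_cases h : G p
  · rw [tG_pos s h]
    exact Real.rpow_nonneg (Nat.cast_nonneg _) _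
  · rw [tG_neg s h]

private theorem le_summable (B : ℕ) :
    Summable (fun p : Nat.Primes => if (p : ℕ) ≤ B then (1 : ℝ) else 0) := by
  have h : Summable (fun n : ℕ => if n ≤ B then (1 : ℝ) else 0) := by
    apply summable_of_ne_finset_zero (s := Finset.range (B + 1))
    intro b hb
    rw [Finset.mem_range, not_lt] at hb
    exact if_neg (by omega)
  exact h.comp_injective (i := fun p : Nat.Primes => (p : ℕ)) (fun a b hab => Subtype.ext hab)

private theorem rpow_le_inv {s : ℝ} (hs : 1 < s) (p : Nat.Primes) :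
    ((p : ℕ) : ℝ) ^ (-s) ≤ 1 / ((p : ℕ) : ℝ) := by
  have h1 : (1 : ℝ) ≤ ((p : ℕ) : ℝ) := by exact_mod_cast p.2.one_lt.le
  have h2 := Real.rpow_le_rpow_of_exponent_le h1 (show -s ≤ -1 by linarith)
  rw [Real.rpow_neg_one] at h2
  rw [one_div]
  exact h2

private theorem rpow_le_one' {s : ℝ} (hs : 1 < s) (p : Nat.Primes) :
    ((p : ℕ) : ℝ) ^ (-s) ≤ 1 :=
  Real.rpow_le_one_of_one_le_of_nonpos (by exact_mod_cast p.2.one_lt.le) (by linarith)

/-- the small primes contribute a bounded amount -/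
private theorem dS_le_bdd (B : ℕ) : ∃ M : ℝ, ∀ s : ℝ, 1 < s → dS (fun q : ℕ => q ≤ B) s ≤ M := by
  refine ⟨∑' p : Nat.Primes, (if (p : ℕ) ≤ B then (1 : ℝ) else 0), fun s hs => ?_⟩
  unfold dS
  refine (dS_summable (fun q : ℕ => q ≤ B) hs).tsum_le_tsum (fun p => ?_) (le_summable B)
  by_cases h : (p : ℕ) ≤ B
  · rw [if_pos h, if_pos h]
    exact rpow_le_one' hs p
  · rw [if_neg h, if_neg h]

open Classical in
private theorem not_summable_of_dS {G : ℕ → Prop} {δ C : ℝ} (hδ : 0 < δ)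
    (h : ∀ s : ℝ, 1 < s → s < 2 → δ * Real.log (1 / (s - 1)) - C ≤ dS G s) (B : ℕ) :
    ¬ Summable (fun q : ℕ => if q.Prime ∧ B < q ∧ G q then (1 : ℝ) / q else 0) := by
  intro hS
  have hS' : Summable (fun p : Nat.Primes =>
      if (p : ℕ).Prime ∧ B < (p : ℕ) ∧ G (p : ℕ) then (1 : ℝ) / ((p : ℕ) : ℝ) else 0) :=
    hS.comp_injective (i := fun p : Nat.Primes => (p : ℕ)) (fun a b hab => Subtype.ext hab)
  have hg := (le_summable B).add hS'
  obtain ⟨M, hM⟩ : ∃ M : ℝ, M = ∑' p : Nat.Primes, ((if (p : ℕ) ≤ B then (1 : ℝ) else 0) +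
      if (p : ℕ).Prime ∧ B < (p : ℕ) ∧ G (p : ℕ) then (1 : ℝ) / ((p : ℕ) : ℝ) else 0) := ⟨_, rfl⟩
  obtain ⟨s, hs, hs2, hs3⟩ := exists_log_large ((C + M) / δ)
  have h1 := h s hs hs2
  have h2 : dS G s ≤ M := by
    rw [hM]
    unfold dS
    refine (dS_summable G hs).tsum_le_tsum (fun p => ?_) hg
    have hx1 := rpow_le_one' hs p
    have hx2 := rpow_le_inv hs p
    have hx3 : (0 : ℝ) ≤ 1 / ((p : ℕ) : ℝ) := by positivity
    by_cases hG : G (p : ℕ)
    · by_cases hB : (p : ℕ) ≤ B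
      · rw [if_pos hG, if_pos hB, if_neg (show ¬ ((p : ℕ).Prime ∧ B < (p : ℕ) ∧ G (p : ℕ)) from
          fun h' => absurd h'.2.1 (by omega))]
        linarith
      · rw [if_pos hG, if_neg hB, if_pos ⟨p.2, by omega, hG⟩]
        linarith
    · rw [if_neg hG, if_neg (show ¬ ((p : ℕ).Prime ∧ B < (p : ℕ) ∧ G (p : ℕ)) from fun h' => hG h'.2.2)]
      split_ifs
      · norm_num
      · norm_num
  rw [div_lt_iff₀ hδ] at hs3
  linarith


theorem card_one_le {p q n : ℕ} (hq : q.Prime) (hn : ∃ j, n = 2 ^ j) (h : Odd (orderOf (p : ZMod q))) :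
    Nat.card {y : ZMod q // y ^ n = 1} ≤ Nat.card {y : ZMod q // y ^ n = (p : ZMod q)} := by
  have hqf : Fact q.Prime := ⟨hq⟩
  obtain ⟨j, rfl⟩ := hn
  have hco : (2 ^ j).Coprime (orderOf (p : ZMod q)) := Nat.Coprime.pow_left _ (Nat.coprime_two_left.2 h)
  obtain ⟨m, hm⟩ := exists_pow_eq_self_of_coprime hco
  have hp0 : (p : ZMod q) ≠ 0 := by
    intro h0
    rw [h0] at h
    have h1 : orderOf (0 : ZMod q) = 0 := by
      rw [orderOf_eq_zero_iff']
      intro k hk
      rw [zero_pow hk.ne']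
      exact zero_ne_one
    rw [h1] at h
    exact Nat.not_odd_zero h
  have hs : ((p : ZMod q) ^ m) ^ 2 ^ j = p := by
    rw [← pow_mul, mul_comm, pow_mul]
    exact hm
  refine Nat.card_le_card_of_injective
    (fun y : {y : ZMod q // y ^ 2 ^ j = 1} => (⟨y * (p : ZMod q) ^ m, by rw [mul_pow, y.2, one_mul, hs]⟩ :
      {y : ZMod q // y ^ 2 ^ j = (p : ZMod q)})) ?_
  intro y z hyz
  have h1 := congrArg Subtype.val hyz
  exact Subtype.ext (mul_right_cancel₀ (pow_ne_zero _ hp0) h1)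

theorem sum_orders (q j : ℕ) (hq : q.Prime) :
    ∑ i ∈ Finset.range (j + 1), Nat.card {y : ZMod q // orderOf y = 2 ^ i} ≤ Nat.card {y : ZMod q // y ^ 2 ^ j = 1} := by
  classical
  have hqf : Fact q.Prime := ⟨hq⟩
  have h1 : ∀ (P : ZMod q → Prop) [DecidablePred P], Nat.card {y : ZMod q // P y} = (Finset.univ.filter P).card := by
    intro P _
    rw [Nat.card_eq_fintype_card, Fintype.card_subtype]
  simp only [h1]
  rw [← Finset.card_biUnion]
  · apply Finset.card_le_card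
    intro y hy
    rw [Finset.mem_biUnion] at hy
    obtain ⟨i, hi, hy⟩ := hy
    rw [Finset.mem_filter] at hy ⊢
    refine ⟨Finset.mem_univ _, ?_⟩
    rw [← orderOf_dvd_iff_pow_eq_one, hy.2]
    exact pow_dvd_pow 2 (by rw [Finset.mem_range] at hi; omega)
  · intro i _ k _ hik
    rw [Function.onFun, Finset.disjoint_left]
    intro y hy hy'
    rw [Finset.mem_filter] at hy hy'
    apply hik
    have h2 : 2 ^ i = 2 ^ k := by rw [← hy.2, ← hy'.2]
    exact Nat.pow_right_injective le_rfl h2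

open Classical in
theorem even_order_div (K : Type) [Field K] [NumberField K] (p : ℕ) (hp : p.Prime) (B : ℕ) :
    ¬ Summable (fun q : ℕ => if q.Prime ∧ B < q ∧ 0 < np K q ∧ ¬ Odd (orderOf (p : ZMod q)) then (1 : ℝ) / q else 0) := by
  obtain ⟨d, hd⟩ : ∃ d : ℕ, d = Module.finrank ℚ K := ⟨_, rfl⟩
  obtain ⟨R, hR1, hR2, N1, hN1⟩ := root_le p (2 ^ d) hp (by positivity)
  have hc : ∀ i : ℕ, ∃ N : ℕ, ∀ q : ℕ, q.Prime → N < q →
      np (CyclotomicField (2 ^ i) K) q ≤ np K q * Nat.card {y : ZMod q // orderOf y = 2 ^ i} := fun i => cyc_le K (2 ^ i)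
  choose N2 hN2 using hc
  obtain ⟨N, hN⟩ : ∃ N : ℕ, N = max N1 ((Finset.range (d + 1)).sup N2) := ⟨_, rfl⟩
  obtain ⟨G, hG⟩ : ∃ G : ℕ → Prop, G = fun q => 0 < np K q ∧ ¬ Odd (orderOf (p : ZMod q)) := ⟨_, rfl⟩
  obtain ⟨D, hD⟩ : ∃ D : ℕ → ℕ, D = fun i => Module.finrank ℚ (CyclotomicField (2 ^ i) K) := ⟨_, rfl⟩
  obtain ⟨M, hM⟩ : ∃ M : ℝ, M = ∑ i ∈ Finset.range (d + 1), (D i : ℝ) := ⟨_, rfl⟩
  have hD1 : ∀ i, 1 ≤ D i := by
    intro i
    rw [hD]
    exact Module.finrank_pos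
  have hM0 : 0 < M := by
    rw [hM]
    refine Finset.sum_pos (fun i _ => ?_) ⟨0, Finset.mem_range.2 (by omega)⟩
    have := hD1 i
    exact_mod_cast this
  -- the main inequality at one prime
  have hpt : ∀ q : ℕ, q.Prime → N < q → ¬ G q →
      ∑ i ∈ Finset.range (d + 1), np (CyclotomicField (2 ^ i) K) q ≤ d * np R q := by
    intro q hq hNq hGq
    have h1 : ∑ i ∈ Finset.range (d + 1), np (CyclotomicField (2 ^ i) K) q ≤
        np K q * Nat.card {y : ZMod q // y ^ 2 ^ d = 1} := by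
      refine le_trans (Finset.sum_le_sum fun i hi => hN2 i q hq ?_) ?_
      · have h2 : N2 i ≤ (Finset.range (d + 1)).sup N2 := Finset.le_sup (f := N2) hi
        have h3 := le_max_right N1 ((Finset.range (d + 1)).sup N2)
        omega
      · rw [← Finset.mul_sum]
        exact Nat.mul_le_mul_left _ (sum_orders q d hq)
    rcases Nat.eq_zero_or_pos (np K q) with h0 | h0
    · rw [h0, zero_mul] at h1
      omega
    · have hodd : Odd (orderOf (p : ZMod q)) := by
        by_contra h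
        apply hGq
        rw [hG]
        exact ⟨h0, h⟩
      have h2 := card_one_le hq ⟨d, rfl⟩ hodd
      have h3 := hN1 q hq (by have := le_max_left N1 ((Finset.range (d + 1)).sup N2); omega)
      have h4 : np K q ≤ d := by
        rw [hd]
        exact np_le K q hq
      exact h1.trans (Nat.mul_le_mul h4 (h2.trans h3))
  -- the same as real numbers
  have hle : ∀ (s : ℝ) (q : Nat.Primes), ∑ i ∈ Finset.range (d + 1),
      (np (CyclotomicField (2 ^ i) K) q : ℝ) * ((q : ℕ) : ℝ) ^ (-s) ≤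
      d * ((np R q : ℝ) * ((q : ℕ) : ℝ) ^ (-s)) + (M * tG G s q + M * tG (fun q : ℕ => q ≤ N) s q) := by
    intro s q
    obtain ⟨x, hxe⟩ : ∃ x : ℝ, x = ((q : ℕ) : ℝ) ^ (-s) := ⟨_, rfl⟩
    have hx : 0 ≤ x := by
      rw [hxe]
      exact Real.rpow_nonneg (Nat.cast_nonneg _) _
    rw [← hxe, ← Finset.sum_mul]
    have hg0 : 0 ≤ M * tG G s q := mul_nonneg hM0.le (tG_nonneg _ _ _)
    have ht0 : 0 ≤ M * tG (fun q : ℕ => q ≤ N) s q := mul_nonneg hM0.le (tG_nonneg _ _ _)
    have hr0 : 0 ≤ (d : ℝ) * ((np R q : ℝ) * x) := by positivity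
    have htriv : (∑ i ∈ Finset.range (d + 1), (np (CyclotomicField (2 ^ i) K) q : ℝ)) * x ≤ M * x := by
      refine mul_le_mul_of_nonneg_right ?_ hx
      rw [hM]
      refine Finset.sum_le_sum fun i _ => ?_
      have h1 : np (CyclotomicField (2 ^ i) K) q ≤ D i := by
        rw [hD]
        exact np_le _ _ q.2
      exact_mod_cast h1
    by_cases hqN : (q : ℕ) ≤ N
    · rw [tG_pos s (G := fun q : ℕ => q ≤ N) hqN, ← hxe]
      linarith
    · by_cases hGq : G q
      · rw [tG_pos s hGq, ← hxe]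
        linarith
      · have h1 := hpt q q.2 (by omega) hGq
        have h2 : (∑ i ∈ Finset.range (d + 1), (np (CyclotomicField (2 ^ i) K) q : ℝ)) ≤ d * np R q := by
          exact_mod_cast h1
        have h3 := mul_le_mul_of_nonneg_right h2 hx
        linarith
  obtain ⟨C1, hC1⟩ := np_sum R
  have hc2 : ∀ i : ℕ, ∃ C : ℝ, ∀ s : ℝ, 1 < s → s < 2 →
      Real.log (1 / (s - 1)) - C ≤ ∑' q : Nat.Primes, (np (CyclotomicField (2 ^ i) K) q : ℝ) * ((q : ℕ) : ℝ) ^ (-s) := by
    intro i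
    obtain ⟨C, hC⟩ := np_sum (CyclotomicField (2 ^ i) K)
    refine ⟨C, fun s hs hs2 => ?_⟩
    have := (abs_le.1 (hC s hs hs2)).1
    linarith
  choose C2 hC2 using hc2
  obtain ⟨M', hM'⟩ := dS_le_bdd N
  have key := not_summable_of_dS (G := G) (δ := 1 / M)
    (C := ((∑ i ∈ Finset.range (d + 1), C2 i) + d * C1 + M * M') / M) (by positivity)
    (fun s hs hs2 => by
      have h5 := (abs_le.1 (hC1 s hs hs2)).2
      have h6 := hM' s hs
      have hS1 : Summable (fun q : Nat.Primes => ∑ i ∈ Finset.range (d + 1),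
          (np (CyclotomicField (2 ^ i) K) q : ℝ) * ((q : ℕ) : ℝ) ^ (-s)) :=
        summable_sum fun i _ => np_summable (CyclotomicField (2 ^ i) K) hs
      have hS2 := np_summable R hs
      have hS3 := tG_summable G hs
      have hS4 := tG_summable (fun q : ℕ => q ≤ N) hs
      have hsum := hS1.tsum_le_tsum (fun q => hle s q)
        ((hS2.mul_left _).add ((hS3.mul_left _).add (hS4.mul_left _)))
      rw [(hS2.mul_left _).tsum_add ((hS3.mul_left _).add (hS4.mul_left _)),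
        (hS3.mul_left _).tsum_add (hS4.mul_left _), tsum_mul_left, tsum_mul_left, tsum_mul_left,
        ← dS_eq, ← dS_eq, Summable.tsum_finsetSum fun i _ => np_summable (CyclotomicField (2 ^ i) K) hs] at hsum
      have h7 : M * dS (fun q : ℕ => q ≤ N) s ≤ M * M' := mul_le_mul_of_nonneg_left h6 hM0.le
      have h8 : ((d : ℝ) + 1) * Real.log (1 / (s - 1)) - ∑ i ∈ Finset.range (d + 1), C2 i ≤
          ∑ i ∈ Finset.range (d + 1), ∑' q : Nat.Primes, (np (CyclotomicField (2 ^ i) K) q : ℝ) * ((q : ℕ) : ℝ) ^ (-s) := by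
        have h9 := Finset.sum_le_sum (s := Finset.range (d + 1)) fun i _ => hC2 i s hs hs2
        rw [Finset.sum_sub_distrib, Finset.sum_const, Finset.card_range, nsmul_eq_mul] at h9
        push_cast at h9
        exact h9
      have h10 : (d : ℝ) * ∑' q : Nat.Primes, (np R q : ℝ) * ((q : ℕ) : ℝ) ^ (-s) ≤
          d * (Real.log (1 / (s - 1)) + C1) := mul_le_mul_of_nonneg_left (by linarith) (Nat.cast_nonneg _)
      have h11 : 1 / M * Real.log (1 / (s - 1)) - ((∑ i ∈ Finset.range (d + 1), C2 i) + d * C1 + M * M') / M =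
          (Real.log (1 / (s - 1)) - ((∑ i ∈ Finset.range (d + 1), C2 i) + d * C1 + M * M')) / M := by ring
      rw [h11, div_le_iff₀ hM0]
      linarith) B
  intro hS
  apply key
  refine hS.congr fun q => ?_
  by_cases hq : q.Prime ∧ B < q ∧ 0 < np K q ∧ ¬ Odd (orderOf (p : ZMod q))
  · have hq' : q.Prime ∧ B < q ∧ G q := by
      rw [hG]
      exact hq
    rw [if_pos hq, if_pos hq']
  · have hq' : ¬ (q.Prime ∧ B < q ∧ G q) := by
      rw [hG]
      exact hq
    rw [if_neg hq, if_neg hq']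

end Pool.Agent.H3.PO
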