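import Pool.Agent.H24.FD.DegOne

/-!
PO Idx: homomorphisms of rings of integers to `ZMod q` and a monogenic subring.
-/

set_option autoImplicit false

namespace Pool.Agent.H3.PO

open NumberField Polynomial Pool.Agent.H24.FD

theorem uniform_index (L : Type*) [Field L] [NumberField L] (T : Subring (𝓞 L))
    (h : ∀ x : 𝓞 L, ∃ m : ℤ, m ≠ 0 ∧ (m : 𝓞 L) * x ∈ T) : ∃ N : ℕ, 0 < N ∧ ∀ x : 𝓞 L, (N : 𝓞 L) * x ∈ T := by
  classical
  obtain ⟨s, hs⟩ := (inferInstance : Module.Finite ℤ (𝓞 L)).fg_top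
  choose m hm0 hm using h
  refine ⟨∏ x ∈ s, (m x).natAbs, Finset.prod_pos fun x _ => Int.natAbs_pos.2 (hm0 x), fun x => ?_⟩
  have hx : x ∈ Submodule.span ℤ (s : Set (𝓞 L)) := by
    rw [hs]
    exact Submodule.mem_top
  induction hx using Submodule.span_induction with
  | mem y hy =>
    have h1 : (m y).natAbs ∣ ∏ x ∈ s, (m x).natAbs := Finset.dvd_prod_of_mem (fun x => (m x).natAbs) hy
    have h2 : m y ∣ ((∏ x ∈ s, (m x).natAbs : ℕ) : ℤ) := by
      rw [← Int.natAbs_dvd_natAbs, Int.natAbs_natCast]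
      exact h1
    obtain ⟨k, hk⟩ := h2
    have h3 : ((∏ x ∈ s, (m x).natAbs : ℕ) : 𝓞 L) * y = (k : 𝓞 L) * ((m y : 𝓞 L) * y) := by
      have h4 : ((∏ x ∈ s, (m x).natAbs : ℕ) : 𝓞 L) = ((m y * k : ℤ) : 𝓞 L) := by
        rw [← hk]
        norm_cast
      rw [h4]
      push_cast
      ring
    rw [h3]
    exact T.mul_mem (intCast_mem T k) (hm y)
  | zero =>
    rw [mul_zero]
    exact T.zero_mem
  | add y z _ _ hy hz =>
    rw [mul_add]
    exact T.add_mem hy hz
  | smul a y _ hy =>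
    have h1 : ((∏ x ∈ s, (m x).natAbs : ℕ) : 𝓞 L) * (a • y) = (a : 𝓞 L) * (((∏ x ∈ s, (m x).natAbs : ℕ) : 𝓞 L) * y) := by
      rw [zsmul_eq_mul]
      ring
    rw [h1]
    exact T.mul_mem (intCast_mem T a) hy

theorem cast_ne {q N : ℕ} (hN : 0 < N) (h : N < q) : ((N : ℕ) : ZMod q) ≠ 0 := by
  intro h0
  rw [ZMod.natCast_eq_zero_iff] at h0
  have := Nat.le_of_dvd hN h0
  omega

/-- homomorphisms from the integers of a cyclotomic extension -/
theorem cyc_le (K : Type) [Field K] [NumberField K] (n : ℕ) [hn : NeZero n] : ∃ N : ℕ, ∀ q : ℕ, q.Prime → N < q →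
    np (CyclotomicField n K) q ≤ np K q * Nat.card {y : ZMod q // orderOf y = n} := by
  classical
  have hζ := IsCyclotomicExtension.zeta_spec n K (CyclotomicField n K)
  set ζ := IsCyclotomicExtension.zeta n K (CyclotomicField n K) with hζdef
  have hint : IsIntegral ℤ ζ := hζ.isIntegral (Nat.pos_of_ne_zero hn.out)
  let z : 𝓞 (CyclotomicField n K) := ⟨ζ, hint⟩
  have hz : IsPrimitiveRoot z n := by
    refine IsPrimitiveRoot.of_map_of_injective (f := algebraMap (𝓞 (CyclotomicField n K)) (CyclotomicField n K)) ?_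
      RingOfIntegers.coe_injective
    exact hζ
  let T : Subalgebra (𝓞 K) (𝓞 (CyclotomicField n K)) := Algebra.adjoin (𝓞 K) {z}
  have hT : ∀ x : CyclotomicField n K, ∃ (m : ℤ) (y : 𝓞 (CyclotomicField n K)), m ≠ 0 ∧ y ∈ T ∧
      (m : CyclotomicField n K) * x = algebraMap (𝓞 (CyclotomicField n K)) (CyclotomicField n K) y := by
    intro x
    have hx : x ∈ Algebra.adjoin K ({ζ} : Set (CyclotomicField n K)) := by
      rw [IsCyclotomicExtension.adjoin_primitive_root_eq_top hζ]
      exact Algebra.mem_top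
    induction hx using Algebra.adjoin_induction with
    | mem y hy =>
      rw [Set.mem_singleton_iff] at hy
      exact ⟨1, z, one_ne_zero, Algebra.subset_adjoin (Set.mem_singleton z), by
        rw [hy, Int.cast_one, one_mul]
        rfl⟩
    | algebraMap a =>
      have ha : IsAlgebraic ℤ a := (IsFractionRing.isAlgebraic_iff ℤ ℚ K).2 (Algebra.IsAlgebraic.isAlgebraic a)
      obtain ⟨y, hy, hy'⟩ := ha.exists_integral_multiple
      refine ⟨y, algebraMap (𝓞 K) (𝓞 (CyclotomicField n K)) ⟨y • a, hy'⟩, hy, T.algebraMap_mem _, ?_⟩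
      have h1 : algebraMap (𝓞 (CyclotomicField n K)) (CyclotomicField n K)
          (algebraMap (𝓞 K) (𝓞 (CyclotomicField n K)) ⟨y • a, hy'⟩) = algebraMap K (CyclotomicField n K) (y • a) := rfl
      rw [h1, zsmul_eq_mul, map_mul, map_intCast]
    | add y w _ _ hy hw =>
      obtain ⟨m1, y1, h1, h2, h3⟩ := hy
      obtain ⟨m2, y2, h4, h5, h6⟩ := hw
      refine ⟨m1 * m2, (m2 : 𝓞 (CyclotomicField n K)) * y1 + (m1 : 𝓞 (CyclotomicField n K)) * y2, mul_ne_zero h1 h4,
        T.add_mem (T.mul_mem (intCast_mem T m2) h2) (T.mul_mem (intCast_mem T m1) h5), ?_⟩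
      rw [map_add, map_mul, map_mul, ← h3, ← h6, map_intCast, map_intCast]
      push_cast
      ring
    | mul y w _ _ hy hw =>
      obtain ⟨m1, y1, h1, h2, h3⟩ := hy
      obtain ⟨m2, y2, h4, h5, h6⟩ := hw
      refine ⟨m1 * m2, y1 * y2, mul_ne_zero h1 h4, T.mul_mem h2 h5, ?_⟩
      rw [map_mul, ← h3, ← h6]
      push_cast
      ring
  obtain ⟨N, hN0, hN⟩ := uniform_index (CyclotomicField n K) T.toSubring (fun x => by
    obtain ⟨m, y, hm, hy, hxy⟩ := hT (algebraMap _ _ x)
    refine ⟨m, hm, ?_⟩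
    have : (m : 𝓞 (CyclotomicField n K)) * x = y := by
      apply RingOfIntegers.coe_injective
      rw [map_mul, map_intCast]
      exact hxy
    rw [this]
    exact hy)
  refine ⟨max N n, fun q hq hqN => ?_⟩
  have hqf : Fact q.Prime := ⟨hq⟩
  have hNq : ((N : ℕ) : ZMod q) ≠ 0 := cast_ne hN0 (lt_of_le_of_lt (le_max_left _ _) hqN)
  have hnq : NeZero ((n : ℕ) : ZMod q) := ⟨cast_ne (Nat.pos_of_ne_zero hn.out) (lt_of_le_of_lt (le_max_right _ _) hqN)⟩
  have hord : ∀ ψ : 𝓞 (CyclotomicField n K) →+* ZMod q, orderOf (ψ z) = n := by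
    intro ψ
    have h1 : IsRoot (cyclotomic n (𝓞 (CyclotomicField n K))) z := hz.isRoot_cyclotomic (Nat.pos_of_ne_zero hn.out)
    have h2 : IsRoot (cyclotomic n (ZMod q)) (ψ z) := by
      rw [← map_cyclotomic n ψ]
      exact h1.map
    rw [isRoot_cyclotomic_iff] at h2
    exact h2.eq_orderOf.symm
  have hf1 := np_finite K q hq
  have hinj : Function.Injective (fun ψ : 𝓞 (CyclotomicField n K) →+* ZMod q =>
      ((ψ.comp (algebraMap (𝓞 K) (𝓞 (CyclotomicField n K))), (⟨ψ z, hord ψ⟩ : {y : ZMod q // orderOf y = n})) :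
        (𝓞 K →+* ZMod q) × {y : ZMod q // orderOf y = n})) := by
    intro ψ1 ψ2 h
    have h1 := congrArg Prod.fst h
    have h2 := congrArg Subtype.val (congrArg Prod.snd h)
    simp only at h1 h2
    have h3 : ∀ y ∈ T, ψ1 y = ψ2 y := by
      intro y hy
      induction hy using Algebra.adjoin_induction with
      | mem y hy =>
        rw [Set.mem_singleton_iff] at hy
        rw [hy]
        exact h2
      | algebraMap a => exact congrArg (fun f : 𝓞 K →+* ZMod q => f a) h1
      | add y w _ _ hy hw => rw [map_add, map_add, hy, hw]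
      | mul y w _ _ hy hw => rw [map_mul, map_mul, hy, hw]
    ext x
    have h4 := h3 _ (hN x)
    rw [map_mul, map_mul, map_natCast, map_natCast] at h4
    exact mul_left_cancel₀ hNq h4
  have h4 := Nat.card_le_card_of_injective _ hinj
  rw [Nat.card_prod] at h4
  exact h4

end Pool.Agent.H3.PO
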