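import Pool.Agent.H37.PV.Sieve

/-!
PO Sieve: the sieve of `Pool/Agent/H37/PV/Sieve.lean` with thresholds independent of the condition, and upper Banach density zero
for sets of integers.
-/

set_option autoImplicit false

namespace Pool.Agent.H3.PO

open Filter Finset Polynomial Pool.Agent.H37.PV

/-- the sieve, uniformly in the conditions -/
theorem sieve_unif (S : ℕ → Prop) (hS : ∀ q, S q → q.Prime)
    (hdiv : ¬ Summable (fun q : ℕ => open Classical in if S q then (1 : ℝ) / q else 0)) (ε : ℝ) (hε : 0 < ε) :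
    ∃ N X0 : ℕ, ∀ (P : ℕ → ℕ → Prop) [∀ q, DecidablePred (P q)], (∀ q n, P q (n % q ^ 2) ↔ P q n) →
      (∀ q, S q → q ≤ 2 * ((range (q ^ 2)).filter fun n => ¬ P q n).card) → ∀ x : ℕ, X0 ≤ x →
      ((open Classical in (range (x + 1)).filter fun n => ∀ q < N, S q → P q n).card : ℝ) ≤ ε * x := by
  classical
  have hnn : ∀ q : ℕ, 0 ≤ (if S q then (1 : ℝ) / q else 0) := fun q => by split_ifs <;> positivity
  have hdiv' : ¬ Summable (fun q : ℕ => if S q then (1 : ℝ) / q else 0) := by convert hdiv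
  have ht := (not_summable_iff_tendsto_nat_atTop_of_nonneg hnn).1 hdiv'
  obtain ⟨N, hN⟩ := (ht.eventually_ge_atTop (2 * Real.log (2 / ε))).exists
  obtain ⟨Q, hQdef⟩ : ∃ Q : Finset ℕ, Q = (range N).filter S := ⟨_, rfl⟩
  have hQ : ∀ q ∈ Q, q.Prime := fun q hq => hS q (by rw [hQdef] at hq; exact (mem_filter.1 hq).2)
  obtain ⟨M, hMdef⟩ : ∃ M : ℕ, M = ∏ q ∈ Q, q ^ 2 := ⟨_, rfl⟩
  have hM : 0 < M := by
    rw [hMdef]
    exact prod_pos fun q hq => pow_pos (hQ q hq).pos 2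
  refine ⟨N, M, fun P _ hP hc x hx => ?_⟩
  have hg : ∀ q ∈ Q, (((range (q ^ 2)).filter (P q)).card : ℝ) ≤ (q : ℝ) ^ 2 * Real.exp (-(1 / (2 * (q : ℝ)))) := by
    intro q hq
    have hq0 : (0 : ℝ) < q := by exact_mod_cast (hQ q hq).pos
    have h1 := card_filter_add_card_filter_not (s := range (q ^ 2)) (P q)
    rw [card_range] at h1
    have h2 := hc q (by rw [hQdef] at hq; exact (mem_filter.1 hq).2)
    have h3 : (((range (q ^ 2)).filter (P q)).card : ℝ) + (((range (q ^ 2)).filter fun n => ¬ P q n).card : ℝ) = (q : ℝ) ^ 2 := by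
      exact_mod_cast h1
    have h4 : (q : ℝ) ≤ 2 * (((range (q ^ 2)).filter fun n => ¬ P q n).card : ℝ) := by exact_mod_cast h2
    have h5 : 1 - 1 / (2 * (q : ℝ)) ≤ Real.exp (-(1 / (2 * (q : ℝ)))) := by
      have := Real.add_one_le_exp (-(1 / (2 * (q : ℝ))))
      linarith
    calc (((range (q ^ 2)).filter (P q)).card : ℝ) ≤ (q : ℝ) ^ 2 - q / 2 := by linarith
      _ = (q : ℝ) ^ 2 * (1 - 1 / (2 * (q : ℝ))) := by
        field_simp
      _ ≤ _ := mul_le_mul_of_nonneg_left h5 (by positivity)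
  have hsum : Real.log (2 / ε) ≤ ∑ q ∈ Q, 1 / (2 * (q : ℝ)) := by
    have h1 : ∑ i ∈ range N, (if S i then (1 : ℝ) / i else 0) = ∑ q ∈ Q, (1 : ℝ) / q := by
      rw [hQdef, sum_filter]
    rw [h1] at hN
    have h2 : ∑ q ∈ Q, 1 / (2 * (q : ℝ)) = (∑ q ∈ Q, (1 : ℝ) / q) / 2 := by
      rw [sum_div]
      refine sum_congr rfl fun q _ => ?_
      rw [div_div, mul_comm]
    rw [h2]
    linarith
  have hprod : ((∏ q ∈ Q, ((range (q ^ 2)).filter (P q)).card : ℕ) : ℝ) ≤ M * (ε / 2) := by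
    push_cast
    calc ∏ q ∈ Q, (((range (q ^ 2)).filter (P q)).card : ℝ) ≤ ∏ q ∈ Q, ((q : ℝ) ^ 2 * Real.exp (-(1 / (2 * (q : ℝ))))) :=
          prod_le_prod (fun q _ => Nat.cast_nonneg _) hg
      _ = M * Real.exp (-∑ q ∈ Q, 1 / (2 * (q : ℝ))) := by
        rw [prod_mul_distrib, ← Real.exp_sum, sum_neg_distrib, hMdef]
        push_cast
        rfl
      _ ≤ M * (ε / 2) := by
        refine mul_le_mul_of_nonneg_left ?_ (Nat.cast_nonneg _)
        calc Real.exp (-∑ q ∈ Q, 1 / (2 * (q : ℝ))) ≤ Real.exp (-Real.log (2 / ε)) := Real.exp_le_exp.2 (by linarith)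
          _ = ε / 2 := by
            rw [Real.exp_neg, Real.exp_log (by positivity), inv_div]
  have hper : ∀ n, (∀ q ∈ Q, P q (n % M)) ↔ ∀ q ∈ Q, P q n := by
    intro n
    refine forall₂_congr fun q' hq' => ?_
    rw [← hP q' (n % _), Nat.mod_mod_of_dvd _ (by rw [hMdef]; exact dvd_prod_of_mem (fun q => q ^ 2) hq'), hP]
  have h1 := Dens_count hM (fun n => ∀ q ∈ Q, P q n) hper x
  have h2 := Dens_prod Q hQ P hP
  rw [← hMdef] at h2
  have h3 : ((range (x + 1)).filter fun n => ∀ q < N, S q → P q n) =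
      (range (x + 1)).filter fun n => ∀ q ∈ Q, P q n := by
    refine filter_congr fun n _ => ?_
    simp only [hQdef, mem_filter, mem_range, and_imp]
  have h4 : (((range (x + 1)).filter fun n => ∀ q ∈ Q, P q n).card : ℝ) ≤
      ((x / M : ℕ) + 1 : ℝ) * ((∏ q ∈ Q, ((range (q ^ 2)).filter (P q)).card : ℕ) : ℝ) := by
    exact_mod_cast h1.trans (Nat.mul_le_mul_left _ h2)
  have hM' : (0 : ℝ) < M := by exact_mod_cast hM
  have hx' : (M : ℝ) ≤ x := by exact_mod_cast hx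
  have h5 : ((x / M : ℕ) : ℝ) ≤ (x : ℝ) / M := Nat.cast_div_le
  have h6 : (((range (x + 1)).filter fun n => ∀ q < N, S q → P q n).card : ℝ) ≤ ε * x := by
    rw [h3]
    calc (((range (x + 1)).filter fun n => ∀ q ∈ Q, P q n).card : ℝ) ≤
        ((x / M : ℕ) + 1 : ℝ) * ((∏ q ∈ Q, ((range (q ^ 2)).filter (P q)).card : ℕ) : ℝ) := h4
      _ ≤ ((x : ℝ) / M + 1) * (M * (ε / 2)) := by
        refine mul_le_mul (by linarith) hprod (Nat.cast_nonneg _) (by positivity)
      _ = (x + M) * (ε / 2) := by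
        field_simp
      _ ≤ (x + x) * (ε / 2) := by
        refine mul_le_mul_of_nonneg_right (by linarith) (by positivity)
      _ = ε * x := by ring
  convert h6

/-! ### sets of integers -/

open Classical in
/-- the number of `i ≤ x` with `A (M + i)` -/
noncomputable def cz (A : ℤ → Prop) (M : ℤ) (x : ℕ) : ℝ := (((range (x + 1)).filter fun i : ℕ => A (M + i)).card : ℝ)

theorem cz_mono {A B : ℤ → Prop} (M : ℤ) (x : ℕ) (h : ∀ m, A m → B m) : cz A M x ≤ cz B M x := by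
  classical
  have h1 : ((range (x + 1)).filter fun i : ℕ => A (M + i)).card ≤ ((range (x + 1)).filter fun i : ℕ => B (M + i)).card := by
    apply card_le_card
    intro m hm
    rw [mem_filter] at hm ⊢
    exact ⟨hm.1, h _ hm.2⟩
  have h2 : (((range (x + 1)).filter fun i : ℕ => A (M + i)).card : ℝ) ≤
      ((range (x + 1)).filter fun i : ℕ => B (M + i)).card := by exact_mod_cast h1
  unfold cz
  convert h2

theorem cz_or (A B : ℤ → Prop) (M : ℤ) (x : ℕ) : cz (fun m => A m ∨ B m) M x ≤ cz A M x + cz B M x := by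
  classical
  have h1 : ((range (x + 1)).filter fun i : ℕ => A (M + i) ∨ B (M + i)).card ≤
      ((range (x + 1)).filter fun i : ℕ => A (M + i)).card + ((range (x + 1)).filter fun i : ℕ => B (M + i)).card := by
    refine (card_le_card ?_).trans (card_union_le _ _)
    intro m hm
    rw [mem_filter] at hm
    rw [mem_union, mem_filter, mem_filter]
    rcases hm.2 with h | h
    · exact Or.inl ⟨hm.1, h⟩
    · exact Or.inr ⟨hm.1, h⟩
  have h2 : (((range (x + 1)).filter fun i : ℕ => A (M + i) ∨ B (M + i)).card : ℝ) ≤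
      ((range (x + 1)).filter fun i : ℕ => A (M + i)).card + ((range (x + 1)).filter fun i : ℕ => B (M + i)).card := by
    exact_mod_cast h1
  unfold cz
  convert h2

theorem cz_ex (T : Finset ℕ) (A : ℕ → ℤ → Prop) (M : ℤ) (x : ℕ) :
    cz (fun m => ∃ p ∈ T, A p m) M x ≤ ∑ p ∈ T, cz (A p) M x := by
  classical
  have h1 : ((range (x + 1)).filter fun i : ℕ => ∃ p ∈ T, A p (M + i)).card ≤
      ∑ p ∈ T, ((range (x + 1)).filter fun i : ℕ => A p (M + i)).card := by
    refine (card_le_card ?_).trans card_biUnion_le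
    intro m hm
    rw [mem_filter] at hm
    obtain ⟨hx, p, hp, hA⟩ := hm
    rw [mem_biUnion]
    exact ⟨p, hp, mem_filter.2 ⟨hx, hA⟩⟩
  have h2 : (((range (x + 1)).filter fun i : ℕ => ∃ p ∈ T, A p (M + i)).card : ℝ) ≤
      ∑ p ∈ T, (((range (x + 1)).filter fun i : ℕ => A p (M + i)).card : ℝ) := by exact_mod_cast h1
  unfold cz
  convert h2

/-- upper Banach density zero -/
def ZB (S : Set ℤ) : Prop := ∀ ε : ℝ, 0 < ε → ∃ X : ℕ, ∀ x : ℕ, X ≤ x → ∀ M : ℤ, cz (fun m => m ∈ S) M x ≤ ε * x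

theorem ZB.mono {S T : Set ℤ} (h : ZB T) (hST : S ⊆ T) : ZB S := by
  intro ε hε
  obtain ⟨X, hX⟩ := h ε hε
  exact ⟨X, fun x hx M => (cz_mono M x fun m hm => hST hm).trans (hX x hx M)⟩

theorem ZB.union {S T : Set ℤ} (h : ZB S) (h' : ZB T) : ZB (S ∪ T) := by
  intro ε hε
  obtain ⟨X, hX⟩ := h (ε / 2) (by positivity)
  obtain ⟨X', hX'⟩ := h' (ε / 2) (by positivity)
  refine ⟨max X X', fun x hx M => ?_⟩
  have h1 := hX x ((le_max_left _ _).trans hx) M
  have h2 := hX' x ((le_max_right _ _).trans hx) M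
  have h3 := cz_or (fun m => m ∈ S) (fun m => m ∈ T) M x
  have h4 := cz_mono (A := fun m => m ∈ S ∪ T) (B := fun m => m ∈ S ∨ m ∈ T) M x fun m hm => hm
  linarith

theorem ZB_finite {S : Set ℤ} (h : S.Finite) : ZB S := by
  classical
  intro ε hε
  obtain ⟨N, hN⟩ := exists_nat_ge ((h.toFinset.card : ℝ) / ε)
  refine ⟨N, fun x hx M => ?_⟩
  have h1 : ((range (x + 1)).filter fun i : ℕ => M + i ∈ S).card ≤ h.toFinset.card := by
    refine card_le_card_of_injOn (fun i : ℕ => M + i) ?_ ?_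
    · intro i hi
      rw [coe_filter] at hi
      rw [mem_coe]
      exact (Set.Finite.mem_toFinset h).2 hi.2
    · intro i _ j _ hij
      have : M + (i : ℤ) = M + j := hij
      omega
  have h2 : (h.toFinset.card : ℝ) ≤ ε * N := by
    rw [div_le_iff₀ hε] at hN
    linarith
  have h3 : (N : ℝ) ≤ x := by exact_mod_cast hx
  calc cz (fun m => m ∈ S) M x ≤ h.toFinset.card := by
        unfold cz
        exact_mod_cast (by convert h1 : ((range (x + 1)).filter fun i : ℕ => M + i ∈ S).card ≤ h.toFinset.card)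
    _ ≤ ε * N := h2
    _ ≤ ε * x := mul_le_mul_of_nonneg_left h3 hε.le

/-- sieving the values of a polynomial by exact divisibility -/
theorem sieve_poly (g : ℤ[X]) (S : ℕ → Prop) (hS : ∀ q, S q → q.Prime)
    (hr : ∀ q, S q → ∃ a : ℤ, (q : ℤ) ∣ g.eval a)
    (hs : ∀ q, S q → ∀ b : ℤ, (q : ℤ) ∣ g.eval b → ¬ (q : ℤ) ∣ (derivative g).eval b)
    (hdiv : ¬ Summable (fun q : ℕ => open Classical in if S q then (1 : ℝ) / q else 0)) (ε : ℝ) (hε : 0 < ε) :
    ∃ N X0 : ℕ, ∀ x : ℕ, X0 ≤ x → ∀ M : ℤ,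
      cz (fun m => ∀ q < N, S q → ¬ ((q : ℤ) ∣ g.eval m ∧ ¬ (q : ℤ) ^ 2 ∣ g.eval m)) M x ≤ ε * x := by
  classical
  obtain ⟨N, X0, hN⟩ := sieve_unif S hS hdiv ε hε
  refine ⟨N, X0, fun x hx M => ?_⟩
  obtain ⟨gM, hgM⟩ : ∃ gM : ℤ[X], gM = g.comp (X + C M) := ⟨_, rfl⟩
  have he : ∀ n : ℤ, gM.eval n = g.eval (M + n) := by
    intro n
    rw [hgM, eval_comp]
    simp [add_comm]
  have hd : ∀ n : ℤ, (derivative gM).eval n = (derivative g).eval (M + n) := by
    intro n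
    rw [hgM, derivative_comp]
    simp [eval_comp, add_comm]
  have h1 := hN (fun q n => ¬ ((q : ℤ) ∣ gM.eval (n : ℤ) ∧ ¬ (q : ℤ) ^ 2 ∣ gM.eval (n : ℤ))) (fun q n => per_exact gM q n)
    (fun q hq => by
      obtain ⟨a, ha⟩ := hr q hq
      refine card_exact gM (hS q hq) (a := a - M) ?_ ?_
      · rw [he]
        have : M + (a - M) = a := by ring
        rw [this]
        exact ha
      · intro b hb
        rw [he] at hb
        rw [hd]
        exact hs q hq _ hb) x hx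
  have h2 : cz (fun m => ∀ q < N, S q → ¬ ((q : ℤ) ∣ g.eval m ∧ ¬ (q : ℤ) ^ 2 ∣ g.eval m)) M x =
      (((range (x + 1)).filter fun n : ℕ => ∀ q < N, S q →
        ¬ ((q : ℤ) ∣ gM.eval (n : ℤ) ∧ ¬ (q : ℤ) ^ 2 ∣ gM.eval (n : ℤ))).card : ℝ) := by
    unfold cz
    have h3 : ((range (x + 1)).filter fun i : ℕ => ∀ q < N, S q →
        ¬ ((q : ℤ) ∣ g.eval (M + (i : ℤ)) ∧ ¬ (q : ℤ) ^ 2 ∣ g.eval (M + (i : ℤ)))) =
        (range (x + 1)).filter fun n : ℕ => ∀ q < N, S q →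
        ¬ ((q : ℤ) ∣ gM.eval (n : ℤ) ∧ ¬ (q : ℤ) ^ 2 ∣ gM.eval (n : ℤ)) := by
      refine filter_congr fun n _ => ?_
      simp only [he]
    congr 1
    convert congrArg card h3
  rw [h2]
  convert h1

end Pool.Agent.H3.PO
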