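import Pool.Agent.H3.PO.Alg
import Pool.Agent.H3.PO.Sieve
import Pool.Agent.H37.PV.FinSq
import Pool.Agent.H37.PV.Div
import Pool.Agent.H37.PV.Root
import Pool.Agent.H12.ST.Defs
import Pool.Agent.H3.PO.Even

/-!
PO Main: for almost all `m` (upper Banach density) the number `|f(m)|` fails Mann's test, `f` not constant, not plus or minus a square.
-/

set_option autoImplicit false

namespace Pool.Agent.H3.PO

open Filter Finset Polynomial Pool.Agent.H37.PV Pool.Agent.H24.FD Pool.Agent.H12.ST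

/-- the `m` for which `f(m) ≥ 2` satisfies Mann's condition -/
def SG (f : ℤ[X]) : Set ℤ := {m | ∃ n : ℕ, (n : ℤ) = f.eval m ∧ 2 ≤ n ∧ MannGood n}

/-- a non-residue has even order -/
theorem not_odd_order {p q : ℕ} (h : ¬ IsSquare ((p : ℕ) : ZMod q)) : ¬ Odd (orderOf (p : ZMod q)) := by
  rintro ⟨t, ht⟩
  apply h
  have h4 := pow_orderOf_eq_one (p : ZMod q)
  rw [ht] at h4
  refine ⟨(p : ZMod q) ^ (t + 1), ?_⟩
  have h5 : (p : ZMod q) ^ (t + 1) * (p : ZMod q) ^ (t + 1) = (p : ZMod q) ^ (2 * t + 1) * p := by ring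
  rw [h5, h4, one_mul]

open Classical in
/-- the primes used for a given `p` -/
theorem test_primes' (H : ℤ[X]) (hH : 1 ≤ H.natDegree) (B' : ℕ) : ∃ B : ℕ, ∀ p : ℕ, p.Prime → B < p →
    ∃ Q : ℕ → Prop, (∀ q, Q q → q.Prime ∧ B' < q ∧ ¬ Odd (orderOf (p : ZMod q)) ∧ ∃ a : ℤ, (q : ℤ) ∣ H.eval a) ∧
      ¬ Summable (fun q : ℕ => if Q q then (1 : ℝ) / q else 0) := by
  obtain ⟨K, hK1, hK2, B, hB⟩ := root_of_np H hH
  have hfin := finite_sq K
  refine ⟨hfin.toFinset.sup id, fun p hp hBp => ?_⟩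
  have hsq : ∀ x : K, x ^ 2 ≠ (p : K) := by
    intro x hx
    have h1 : p ∈ hfin.toFinset := (Set.Finite.mem_toFinset hfin).2 ⟨hp, x, hx⟩
    have h2 : p ≤ hfin.toFinset.sup id := Finset.le_sup (f := id) h1
    omega
  refine ⟨fun q => q.Prime ∧ max B B' < q ∧ 0 < np K q ∧ ¬ IsSquare ((p : ℕ) : ZMod q), ?_, ?_⟩
  · rintro q ⟨hq, hBq, hn, hs⟩
    exact ⟨hq, lt_of_le_of_lt (le_max_right _ _) hBq, not_odd_order hs,
      hB q hq (lt_of_le_of_lt (le_max_left _ _) hBq) hn⟩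
  · have h := nonres_div K p hp hsq (max B B')
    convert h

theorem key (f h H : ℤ[X]) (hi : Irreducible h) (hd : 1 ≤ h.natDegree) (Hi : Irreducible H) (Hd : 1 ≤ H.natDegree)
    (B : ℕ)
    (A1 : ∀ p : ℕ, p.Prime → B < p → ∀ (m : ℤ) (n : ℕ), (n : ℤ) = f.eval m → 2 ≤ n →
      (p : ℤ) ∣ h.eval m → ¬ (p : ℤ) ^ 2 ∣ h.eval m → Odd (padicValNat p n))
    (A2 : ∀ q : ℕ, q.Prime → B < q → ∀ (m : ℤ) (n : ℕ), (n : ℤ) = f.eval m → 2 ≤ n →
      (q : ℤ) ∣ H.eval m → ¬ (q : ℤ) ^ 2 ∣ H.eval m → Odd (padicValNat q (n ^ 2 + n + 1))) : ZB (SG f) := by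
  classical
  obtain ⟨B2, hB2⟩ := simple_root h hi hd
  obtain ⟨B5, hB5⟩ := simple_root H Hi Hd
  obtain ⟨K, hK1, hK2, B3, hB3⟩ := root_of_np h hd
  obtain ⟨B1, hB1⟩ := test_primes' H Hd (max B B5)
  obtain ⟨B4, hB4⟩ : ∃ B4 : ℕ, B4 = max (max B B1) (max B2 B3) := ⟨_, rfl⟩
  have hle : B ≤ B4 ∧ B1 ≤ B4 ∧ B2 ≤ B4 ∧ B3 ≤ B4 := by
    rw [hB4]
    refine ⟨?_, ?_, ?_, ?_⟩ <;> simp
  have hS1 := deg_one_div K B4
  intro ε hε
  obtain ⟨P, X1, hP⟩ := sieve_poly h (fun q => q.Prime ∧ B4 < q ∧ 0 < np K q) (fun q h => h.1)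
    (fun q hq => hB3 q hq.1 (by have := hq.2.1; omega) hq.2.2)
    (fun q hq b hb => hB2 q hq.1 (by have := hq.2.1; omega) b hb) (by convert hS1) (ε / 2) (by positivity)
  have hp : ∀ p : ℕ, ∃ (N X2 : ℕ) (Q : ℕ → Prop), (p.Prime → B4 < p →
      (∀ q, Q q → q.Prime ∧ B < q ∧ ¬ Odd (orderOf (p : ZMod q))) ∧
      ∀ x : ℕ, X2 ≤ x → ∀ M : ℤ, cz (fun m => ∀ q < N, Q q →
        ¬ ((q : ℤ) ∣ H.eval m ∧ ¬ (q : ℤ) ^ 2 ∣ H.eval m)) M x ≤ ε / (2 * (P + 1)) * x) := by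
    intro p
    by_cases hpp : p.Prime ∧ B4 < p
    · obtain ⟨Q, hQ, hdiv⟩ := hB1 p hpp.1 (by have := hpp.2; omega)
      obtain ⟨N, X2, hN⟩ := sieve_poly H Q (fun q h => (hQ q h).1) (fun q hq => (hQ q hq).2.2.2)
        (fun q hq b hb => hB5 q (hQ q hq).1 (lt_of_le_of_lt (le_max_right _ _) (hQ q hq).2.1) b hb)
        (by convert hdiv) (ε / (2 * (P + 1))) (by positivity)
      exact ⟨N, X2, Q, fun _ _ => ⟨fun q hq => ⟨(hQ q hq).1,
        lt_of_le_of_lt (le_max_left _ _) (hQ q hq).2.1, (hQ q hq).2.2.1⟩, hN⟩⟩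
    · exact ⟨0, 0, fun _ => False, fun h1 h2 => absurd ⟨h1, h2⟩ hpp⟩
  choose N X2 Q hNQ using hp
  obtain ⟨T, hT⟩ : ∃ T : Finset ℕ, T = (range P).filter (fun p => p.Prime ∧ B4 < p) := ⟨_, rfl⟩
  have hTm : ∀ p, p ∈ T ↔ p < P ∧ p.Prime ∧ B4 < p := by
    intro p
    rw [hT, mem_filter, mem_range]
  refine ⟨max X1 (T.sup X2), fun x hx M => ?_⟩
  have hx1 := hP x ((le_max_left _ _).trans hx) M
  have hx2 : ∀ p ∈ T, cz (fun m => ∀ q < N p, Q p q →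
        ¬ ((q : ℤ) ∣ H.eval m ∧ ¬ (q : ℤ) ^ 2 ∣ H.eval m)) M x ≤ ε / (2 * (P + 1)) * x := by
    intro p hp
    have h1 := (hTm p).1 hp
    exact (hNQ p h1.2.1 h1.2.2).2 x ((Finset.le_sup (f := X2) hp).trans ((le_max_right _ _).trans hx)) M
  have hsub := cz_mono (A := fun m => m ∈ SG f) (B := fun m => (∀ q < P, (q.Prime ∧ B4 < q ∧ 0 < np K q) →
        ¬ ((q : ℤ) ∣ h.eval m ∧ ¬ (q : ℤ) ^ 2 ∣ h.eval m)) ∨
        ∃ p ∈ T, ∀ q < N p, Q p q → ¬ ((q : ℤ) ∣ H.eval m ∧ ¬ (q : ℤ) ^ 2 ∣ H.eval m)) M x (by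
    rintro m ⟨n, hn, hn2, hgood⟩
    by_contra hcon
    push Not at hcon
    obtain ⟨h1, h2⟩ := hcon
    obtain ⟨p, hpP, hp1, hp2, hp3⟩ := h1
    obtain ⟨hpp, hBp, _⟩ := hp1
    obtain ⟨q, _, hq1, hq2, hq3⟩ := h2 p ((hTm p).2 ⟨hpP, hpp, hBp⟩)
    obtain ⟨hqp, hBq, hqs⟩ := (hNQ p hpp hBp).1 q hq1
    exact hqs (hgood p q hpp hqp (A1 p hpp (by omega) m n hn hn2 hp2 hp3) (A2 q hqp hBq m n hn hn2 hq2 hq3)))
  have h2 := cz_or (fun m => ∀ q < P, (q.Prime ∧ B4 < q ∧ 0 < np K q) →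
        ¬ ((q : ℤ) ∣ h.eval m ∧ ¬ (q : ℤ) ^ 2 ∣ h.eval m))
        (fun m => ∃ p ∈ T, ∀ q < N p, Q p q → ¬ ((q : ℤ) ∣ H.eval m ∧ ¬ (q : ℤ) ^ 2 ∣ H.eval m)) M x
  have h3 := cz_ex T (fun p m => ∀ q < N p, Q p q → ¬ ((q : ℤ) ∣ H.eval m ∧ ¬ (q : ℤ) ^ 2 ∣ H.eval m)) M x
  have h7 := sum_le_sum hx2
  rw [sum_const, nsmul_eq_mul] at h7
  have h4 : (T.card : ℝ) ≤ P := by
    have := card_filter_le (range P) (fun p => p.Prime ∧ B4 < p)
    rw [card_range, ← hT] at this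
    exact_mod_cast this
  have hx0 : (0 : ℝ) ≤ x := Nat.cast_nonneg x
  have h5 : (T.card : ℝ) * (ε / (2 * (P + 1)) * x) ≤ (P + 1) * (ε / (2 * (P + 1)) * x) :=
    mul_le_mul_of_nonneg_right (by linarith) (by positivity)
  have h6 : ((P : ℝ) + 1) * (ε / (2 * (P + 1)) * x) = ε / 2 * x := by
    field_simp
  linarith

/-- an irreducible factor of odd multiplicity of `f ^ 2 + f + 1` -/
theorem exists_H (f : ℤ[X]) (hf : 1 ≤ f.natDegree) : ∃ (H : ℤ[X]) (B : ℕ), Irreducible H ∧ 1 ≤ H.natDegree ∧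
    ∀ q : ℕ, q.Prime → B < q → ∀ (m : ℤ) (n : ℕ), (n : ℤ) = f.eval m →
      (q : ℤ) ∣ H.eval m → ¬ (q : ℤ) ^ 2 ∣ H.eval m → Odd (padicValNat q (n ^ 2 + n + 1)) := by
  have hF0 : f ^ 2 + f + 1 ≠ 0 := by
    intro h
    have h1 := natDegree_F f hf
    rw [h, natDegree_zero] at h1
    omega
  rcases odd_or_square _ hF0 with ⟨H, K, E, Hi, Hd, HE, hfe, hK⟩ | ⟨c, g, hc⟩
  · obtain ⟨B, hB⟩ := coprime_part H K Hi Hd hK
    refine ⟨H, B, Hi, Hd, fun q hq hBq m n hn h1 h2 => ?_⟩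
    refine odd_val _ H K E HE hfe q hq m (n ^ 2 + n + 1) ?_ (by omega) h1 h2 (hB q hq hBq m h1)
    push_cast
    rw [hn]
    simp
  · exact absurd hc (not_const_sq f hf c g)

/-- an irreducible factor of odd multiplicity -/
theorem case_odd' (f h k : ℤ[X]) (e : ℕ) (hf : 1 ≤ f.natDegree) (hi : Irreducible h) (hd : 1 ≤ h.natDegree)
    (he : Odd e) (hfe : f = h ^ e * k) (hk : ¬ h ∣ k) : ZB (SG f) := by
  obtain ⟨B, hB⟩ := coprime_part h k hi hd hk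
  obtain ⟨H, B', Hi, Hd, hH⟩ := exists_H f hf
  refine key f h H hi hd Hi Hd (max B B') (fun p hp hBp m n hn hn2 h1 h2 => ?_)
    (fun q hq hBq m n hn hn2 h1 h2 => hH q hq (lt_of_le_of_lt (le_max_right _ _) hBq) m n hn h1 h2)
  exact odd_val f h k e he hfe p hp m n hn (by omega) h1 h2 (hB p hp (lt_of_le_of_lt (le_max_left _ _) hBp) m h1)

/-- a prime of odd exponent in a non-square -/
theorem exists_odd_val (n : ℕ) (hn : ¬ IsSquare n) : ∃ p : ℕ, p.Prime ∧ Odd (padicValNat p n) := by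
  have hn0 : n ≠ 0 := by
    rintro rfl
    exact hn ⟨0, rfl⟩
  obtain ⟨a, b, hab, ha⟩ := Nat.sq_mul_squarefree n
  have ha1 : a ≠ 1 := by
    rintro rfl
    exact hn ⟨b, by rw [← hab]; ring⟩
  obtain ⟨p, hp, hpa⟩ := Nat.exists_prime_and_dvd ha1
  have hpf : Fact p.Prime := ⟨hp⟩
  have hb0 : b ≠ 0 := by
    rintro rfl
    exact hn0 (by rw [← hab]; ring)
  have ha0 : a ≠ 0 := ha.ne_zero
  refine ⟨p, hp, ?_⟩
  rw [← hab, padicValNat.mul (pow_ne_zero 2 hb0) ha0, padicValNat.pow]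
  have h1 : padicValNat p a = 1 := by
    have h2 : 1 ≤ padicValNat p a := one_le_padicValNat_of_dvd ha0 hpa
    have h3 : ¬ 2 ≤ padicValNat p a := by
      intro h
      have h4 : p ^ 2 ∣ a := (padicValNat_dvd_iff_le ha0).2 h
      exact hp.one_lt.ne' (Nat.isUnit_iff.1 (ha p (by rwa [← sq])))
    omega
  rw [h1]
  exact ⟨padicValNat p b, by ring⟩

/-- a constant whose absolute value is not a square times a square -/
theorem case_sq (c : ℤ) (g : ℤ[X]) (hf : 1 ≤ (C c * g ^ 2).natDegree) (hc : ¬ IsSquare c.natAbs) :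
    ZB (SG (C c * g ^ 2)) := by
  classical
  obtain ⟨p, hp, hpc⟩ := exists_odd_val _ hc
  have hpf : Fact p.Prime := ⟨hp⟩
  obtain ⟨H, B, Hi, Hd, hH⟩ := exists_H _ hf
  obtain ⟨B5, hB5⟩ := simple_root H Hi Hd
  obtain ⟨K, hK1, hK2, B3, hB3⟩ := root_of_np H Hd
  obtain ⟨B4, hB4⟩ : ∃ B4 : ℕ, B4 = max B (max B5 B3) := ⟨_, rfl⟩
  have hle : B ≤ B4 ∧ B5 ≤ B4 ∧ B3 ≤ B4 := by
    rw [hB4]
    refine ⟨?_, ?_, ?_⟩ <;> simp
  have hdiv := even_order_div K p hp B4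
  intro ε hε
  obtain ⟨N, X0, hN⟩ := sieve_poly H (fun q => q.Prime ∧ B4 < q ∧ 0 < np K q ∧ ¬ Odd (orderOf (p : ZMod q)))
    (fun q h => h.1) (fun q hq => hB3 q hq.1 (by have := hq.2.1; omega) hq.2.2.1)
    (fun q hq b hb => hB5 q hq.1 (by have := hq.2.1; omega) b hb) (by convert hdiv) ε hε
  refine ⟨X0, fun x hx M => (cz_mono M x ?_).trans (hN x hx M)⟩
  rintro m ⟨n, hn, hn2, hgood⟩ q _ hq hqH
  refine hq.2.2.2 (hgood p q hp hq.1 ?_ (hH q hq.1 (by have := hq.2.1; omega) m n hn hqH.1 hqH.2))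
  have hfm : (n : ℤ) = c * g.eval m ^ 2 := by rw [hn]; simp
  have hnn : n = c.natAbs * (g.eval m).natAbs ^ 2 := by
    have h1 := congrArg Int.natAbs hfm
    rw [Int.natAbs_natCast, Int.natAbs_mul, Int.natAbs_pow] at h1
    exact h1
  have hc0 : c.natAbs ≠ 0 := by
    intro h
    rw [h, zero_mul] at hnn
    omega
  have hg0 : (g.eval m).natAbs ≠ 0 := by
    intro h
    rw [h] at hnn
    have : n = 0 := by rw [hnn]; ring
    omega
  rw [hnn, padicValNat.mul hc0 (pow_ne_zero 2 hg0), padicValNat.pow]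
  exact hpc.add_even ⟨padicValNat p (g.eval m).natAbs, by ring⟩

theorem sg_zero (f : ℤ[X]) (hf1 : 1 ≤ f.natDegree) (hf : ∀ g : ℤ[X], f ≠ g ^ 2 ∧ f ≠ -g ^ 2) : ZB (SG f) := by
  have hf0 : f ≠ 0 := by
    rintro rfl
    rw [natDegree_zero] at hf1
    omega
  rcases odd_or_square f hf0 with ⟨h, k, e, hi, hd, he, hfe, hk⟩ | ⟨c, g, hfc⟩
  · exact case_odd' f h k e hf1 hi hd he hfe hk
  · rw [hfc]
    refine case_sq c g (by rw [← hfc]; exact hf1) ?_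
    rintro ⟨b, hb⟩
    have h1 : c = (b : ℤ) ^ 2 ∨ c = -(b : ℤ) ^ 2 := by
      have h2 : ((c.natAbs : ℕ) : ℤ) = (b : ℤ) ^ 2 := by
        rw [hb]
        push_cast
        ring
      rcases Int.natAbs_eq c with h | h
      · left
        rw [h, h2]
      · right
        rw [h, h2]
    rcases h1 with h1 | h1
    · apply (hf (C (b : ℤ) * g)).1
      rw [hfc, h1, C_pow]
      ring
    · apply (hf (C (b : ℤ) * g)).2
      rw [hfc, h1, C_neg, C_pow]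
      ring

theorem main (f : ℤ[X]) (hf1 : 1 ≤ f.natDegree) (hf : ∀ g : ℤ[X], f ≠ g ^ 2 ∧ f ≠ -g ^ 2) :
    ZB {m : ℤ | MannGood (f.eval m).natAbs} := by
  have hf0 : f ≠ 0 := by
    rintro rfl
    rw [natDegree_zero] at hf1
    omega
  have hfin : {m : ℤ | (f * (f - 1) * (f + 1)).eval m = 0}.Finite := by
    have h0 : f * (f - 1) * (f + 1) ≠ 0 := by
      have h1 : ∀ a : ℤ, f + C a ≠ 0 := by
        intro a h
        have h2 : f = C (-a) := by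
          rw [C_neg]
          exact eq_neg_of_add_eq_zero_left h
        rw [h2, natDegree_C] at hf1
        omega
      have e2 := h1 (-1)
      have e3 := h1 1
      rw [C_neg, C_1, ← sub_eq_add_neg] at e2
      rw [C_1] at e3
      exact mul_ne_zero (mul_ne_zero hf0 e2) e3
    refine (f * (f - 1) * (f + 1)).roots.toFinset.finite_toSet.subset ?_
    intro m hm
    rw [mem_coe, Multiset.mem_toFinset, mem_roots h0]
    exact hm
  have hneg : ZB (SG (-f)) := by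
    refine sg_zero (-f) (by rwa [natDegree_neg]) fun g => ⟨fun h => (hf g).2 ?_, fun h => (hf g).1 ?_⟩
    · rw [← h, neg_neg]
    · exact neg_injective h
  refine (((sg_zero f hf1 hf).union hneg).union (ZB_finite hfin)).mono ?_
  intro m hm
  by_cases h1 : (f.eval m).natAbs ≤ 1
  · right
    show (f * (f - 1) * (f + 1)).eval m = 0
    rw [eval_mul, eval_mul, eval_add, eval_sub, eval_one]
    have h2 : f.eval m = 0 ∨ f.eval m = 1 ∨ f.eval m = -1 := by omega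
    rcases h2 with h | h | h <;> rw [h] <;> ring
  · left
    rcases le_or_gt 0 (f.eval m) with h5 | h5
    · left
      exact ⟨(f.eval m).natAbs, by rw [Int.natAbs_of_nonneg h5], by omega, hm⟩
    · right
      refine ⟨(f.eval m).natAbs, ?_, by omega, hm⟩
      rw [eval_neg]
      omega

/-- for plus or minus a square the condition is empty -/
theorem mann_sq (g : ℤ[X]) (f : ℤ[X]) (hf : f = g ^ 2 ∨ f = -g ^ 2) (m : ℤ) : MannGood (f.eval m).natAbs := by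
  intro p q hp _ h1 _
  exfalso
  have hpf : Fact p.Prime := ⟨hp⟩
  have h2 : (f.eval m).natAbs = (g.eval m).natAbs ^ 2 := by
    rcases hf with h | h
    · rw [h, eval_pow, Int.natAbs_pow]
    · rw [h, eval_neg, eval_pow, Int.natAbs_neg, Int.natAbs_pow]
  rw [h2] at h1
  rcases Nat.eq_zero_or_pos (g.eval m).natAbs with h0 | h0
  · rw [h0] at h1
    simp at h1
  · rw [padicValNat.pow] at h1
    obtain ⟨k, hk⟩ := h1
    omega

/-- the intervals `(M, M + Y]` -/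
theorem main_ncard (f : ℤ[X]) (hf1 : 1 ≤ f.natDegree) (hf : ∀ g : ℤ[X], f ≠ g ^ 2 ∧ f ≠ -g ^ 2) (ε : ℝ) (hε : 0 < ε) :
    ∃ Y₀ : ℕ, ∀ Y : ℕ, Y₀ ≤ Y → ∀ M : ℤ,
      ((Set.ncard {m : ℤ | M < m ∧ m ≤ M + Y ∧ MannGood (f.eval m).natAbs} : ℕ) : ℝ) ≤ ε * Y := by
  classical
  obtain ⟨X0, hX⟩ := main f hf1 hf ε hε
  refine ⟨X0, fun Y hY M => le_trans ?_ (hX Y hY M)⟩
  have h1 : {m : ℤ | M < m ∧ m ≤ M + Y ∧ MannGood (f.eval m).natAbs} ⊆
      ((((range (Y + 1)).filter fun i : ℕ => MannGood (f.eval (M + i)).natAbs).image fun i : ℕ => M + (i : ℤ) :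
        Finset ℤ) : Set ℤ) := by
    rintro m ⟨hm1, hm2, hm3⟩
    rw [coe_image]
    refine ⟨(m - M).toNat, ?_, ?_⟩
    · rw [mem_coe, mem_filter, mem_range]
      have h2 : M + ((m - M).toNat : ℤ) = m := by omega
      rw [h2]
      exact ⟨by omega, hm3⟩
    · show M + ((m - M).toNat : ℤ) = m
      omega
  have h2 := Set.ncard_le_ncard h1 (Finset.finite_toSet _)
  rw [Set.ncard_coe_finset] at h2
  have h3 := h2.trans card_image_le
  have h4 : ((Set.ncard {m : ℤ | M < m ∧ m ≤ M + Y ∧ MannGood (f.eval m).natAbs} : ℕ) : ℝ) ≤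
      (((range (Y + 1)).filter fun i : ℕ => MannGood (f.eval (M + i)).natAbs).card : ℝ) := by exact_mod_cast h3
  refine h4.trans (le_of_eq ?_)
  unfold cz
  congr!

end Pool.Agent.H3.PO
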