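import Pool.Agent.H3.PO.Idx

/-!
PO Rad: the field generated by a root of `X ^ n = p`; the solutions of `y ^ n = p` modulo `q` give homomorphisms.
-/

set_option autoImplicit false

namespace Pool.Agent.H3.PO

open NumberField Polynomial Pool.Agent.H24.FD

theorem irr_rad (p n : ℕ) (hp : p.Prime) (hn : 0 < n) : Irreducible (X ^ n - C (p : ℤ) : ℤ[X]) := by
  have hmon : (X ^ n - C (p : ℤ) : ℤ[X]).Monic := monic_X_pow_sub_C _ hn.ne'
  have hpi : Prime (p : ℤ) := Nat.prime_iff_prime_int.1 hp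
  have hP : (Ideal.span {(p : ℤ)}).IsPrime := (Ideal.span_singleton_prime hpi.ne_zero).2 hpi
  refine irreducible_of_eisenstein_criterion hP ?_ ?_ ?_ ?_ hmon.isPrimitive
  · rw [hmon.leadingCoeff]
    exact fun h => hP.ne_top ((Ideal.eq_top_iff_one _).2 h)
  · intro m hm
    rw [degree_X_pow_sub_C hn, Nat.cast_lt] at hm
    rw [coeff_sub, coeff_X_pow, if_neg hm.ne, zero_sub]
    refine (Ideal.span {(p : ℤ)}).neg_mem ?_
    rw [coeff_C]
    split_ifs
    · exact Ideal.mem_span_singleton_self _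
    · exact Ideal.zero_mem _
  · rw [degree_X_pow_sub_C hn]
    exact_mod_cast hn
  · rw [coeff_sub, coeff_X_pow, if_neg hn.ne, zero_sub, coeff_C_zero, Ideal.span_singleton_pow,
      Ideal.mem_span_singleton, dvd_neg]
    rintro ⟨k, hk⟩
    have h1 : (1 : ℤ) = p * k := by
      apply mul_left_cancel₀ hpi.ne_zero
      linear_combination hk
    exact hpi.not_isUnit (isUnit_of_dvd_one ⟨k, h1⟩)

theorem root_le (p n : ℕ) (hp : p.Prime) (hn : 0 < n) : ∃ (R : Type) (_ : Field R) (_ : NumberField R) (N : ℕ),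
    ∀ q : ℕ, q.Prime → N < q → Nat.card {y : ZMod q // y ^ n = (p : ZMod q)} ≤ np R q := by
  classical
  obtain ⟨f, hf⟩ : ∃ f : ℤ[X], f = X ^ n - C (p : ℤ) := ⟨_, rfl⟩
  have hmon : f.Monic := by
    rw [hf]
    exact monic_X_pow_sub_C _ hn.ne'
  have hirr : Irreducible f := by
    rw [hf]
    exact irr_rad p n hp hn
  obtain ⟨G, hG⟩ : ∃ G : ℚ[X], G = f.map (Int.castRingHom ℚ) := ⟨_, rfl⟩
  have hGirr : Irreducible G := by
    rw [hG]
    exact (IsPrimitive.Int.irreducible_iff_irreducible_map_cast hmon.isPrimitive).1 hirr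
  have : Fact (Irreducible G) := ⟨hGirr⟩
  let R : Type := AdjoinRoot G
  let _ : Field R := AdjoinRoot.instField
  have : CharZero R := charZero_of_injective_algebraMap (algebraMap ℚ R).injective
  have : FiniteDimensional ℚ R := (AdjoinRoot.powerBasis hGirr.ne_zero).finite
  have : NumberField R := { to_charZero := inferInstance, to_finiteDimensional := inferInstance }
  let β : R := AdjoinRoot.root G
  have hβf : aeval β f = 0 := by
    have h1 : eval₂ (AdjoinRoot.of G) (AdjoinRoot.root G) G = 0 := AdjoinRoot.eval₂_root G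
    have h2 : eval₂ ((AdjoinRoot.of G).comp (Int.castRingHom ℚ)) (AdjoinRoot.root G) f = 0 := by
      rw [← eval₂_map, ← hG]
      exact h1
    have h3 : (AdjoinRoot.of G).comp (Int.castRingHom ℚ) = algebraMap ℤ R := RingHom.ext_int _ _
    rw [h3] at h2
    exact h2
  have hint : IsIntegral ℤ β := ⟨f, hmon, hβf⟩
  let b : 𝓞 R := ⟨β, hint⟩
  have hbf : aeval b f = 0 := by
    apply RingOfIntegers.coe_injective
    rw [map_zero, ← aeval_algebraMap_apply]
    exact hβf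
  have hbint : IsIntegral ℤ b := ⟨f, hmon, hbf⟩
  have hmin : minpoly ℤ b = f := by
    have h1 : minpoly ℤ b ∣ f := minpoly.isIntegrallyClosed_dvd hbint hbf
    have h2 : Associated (minpoly ℤ b) f := by
      rcases hirr.dvd_iff.1 h1 with h | h
      · exact absurd h (minpoly.not_isUnit ℤ b)
      · exact h.symm
    exact eq_of_monic_of_associated (minpoly.monic hbint) hmon h2
  have hT : ∀ x : R, ∃ (m : ℤ) (y : 𝓞 R), m ≠ 0 ∧ y ∈ Algebra.adjoin ℤ ({b} : Set (𝓞 R)) ∧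
      (m : R) * x = algebraMap (𝓞 R) R y := by
    intro x
    have hx : x ∈ Algebra.adjoin ℚ ({β} : Set R) := by
      have h1 : Algebra.adjoin ℚ ({β} : Set R) = ⊤ := AdjoinRoot.adjoinRoot_eq_top
      rw [h1]
      exact Algebra.mem_top
    induction hx using Algebra.adjoin_induction with
    | mem y hy =>
      rw [Set.mem_singleton_iff] at hy
      exact ⟨1, b, one_ne_zero, Algebra.subset_adjoin (Set.mem_singleton b), by
        rw [hy, Int.cast_one, one_mul]
        rfl⟩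
    | algebraMap a =>
      refine ⟨a.den, (a.num : 𝓞 R), by exact_mod_cast a.den_nz, intCast_mem _ _, ?_⟩
      rw [map_intCast]
      have h2 : ((a.den : ℤ) : R) * algebraMap ℚ R a = algebraMap ℚ R ((a.den : ℚ) * a) := by
        rw [map_mul, map_natCast]
        norm_cast
      rw [h2, mul_comm, Rat.mul_den_eq_num, map_intCast]
    | add y w _ _ hy hw =>
      obtain ⟨m1, y1, h1, h2, h3⟩ := hy
      obtain ⟨m2, y2, h4, h5, h6⟩ := hw
      refine ⟨m1 * m2, (m2 : 𝓞 R) * y1 + (m1 : 𝓞 R) * y2, mul_ne_zero h1 h4,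
        add_mem (mul_mem (intCast_mem _ m2) h2) (mul_mem (intCast_mem _ m1) h5), ?_⟩
      rw [map_add, map_mul, map_mul, ← h3, ← h6, map_intCast, map_intCast]
      push_cast
      ring
    | mul y w _ _ hy hw =>
      obtain ⟨m1, y1, h1, h2, h3⟩ := hy
      obtain ⟨m2, y2, h4, h5, h6⟩ := hw
      refine ⟨m1 * m2, y1 * y2, mul_ne_zero h1 h4, mul_mem h2 h5, ?_⟩
      rw [map_mul, ← h3, ← h6]
      push_cast
      ring
  obtain ⟨N, hN0, hN⟩ := uniform_index R (Algebra.adjoin ℤ ({b} : Set (𝓞 R))).toSubring (fun x => by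
    obtain ⟨m, y, hm, hy, hxy⟩ := hT (algebraMap _ _ x)
    refine ⟨m, hm, ?_⟩
    have : (m : 𝓞 R) * x = y := by
      apply RingOfIntegers.coe_injective
      rw [map_mul, map_intCast]
      exact hxy
    rw [this]
    exact hy)
  refine ⟨R, inferInstance, inferInstance, N, fun q hq hqN => ?_⟩
  have hqf : Fact q.Prime := ⟨hq⟩
  have hNq : ((N : ℕ) : ZMod q) ≠ 0 := cast_ne hN0 hqN
  have hf1 := np_finite R q hq
  -- the homomorphisms
  have hex : ∀ y : {y : ZMod q // y ^ n = (p : ZMod q)}, ∃ ψ : 𝓞 R →+* ZMod q, ψ b = y := by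
    rintro ⟨y, hy⟩
    have hev : (minpoly ℤ b).eval₂ (Int.castRingHom (ZMod q)) y = 0 := by
      rw [hmin, hf]
      simp [hy]
    obtain ⟨F, hF⟩ : ∃ F : Algebra.adjoin ℤ ({b} : Set (𝓞 R)) →+* ZMod q,
        F ⟨b, Algebra.subset_adjoin (Set.mem_singleton b)⟩ = y := by
      refine ⟨(AdjoinRoot.lift (Int.castRingHom (ZMod q)) y hev).comp
        ((minpoly.equivAdjoin hbint).symm : Algebra.adjoin ℤ ({b} : Set (𝓞 R)) →+* AdjoinRoot (minpoly ℤ b)), ?_⟩
      have h1 : (minpoly.equivAdjoin hbint) (AdjoinRoot.root (minpoly ℤ b)) =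
          ⟨b, Algebra.subset_adjoin (Set.mem_singleton b)⟩ := by
        apply Subtype.ext
        exact AdjoinRoot.Minpoly.coe_toAdjoin_mk_X
      have h2 : (minpoly.equivAdjoin hbint).symm ⟨b, Algebra.subset_adjoin (Set.mem_singleton b)⟩ =
          AdjoinRoot.root (minpoly ℤ b) := by
        rw [← h1, AlgEquiv.symm_apply_apply]
      show AdjoinRoot.lift (Int.castRingHom (ZMod q)) y hev
        ((minpoly.equivAdjoin hbint).symm ⟨b, Algebra.subset_adjoin (Set.mem_singleton b)⟩) = y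
      rw [h2, AdjoinRoot.lift_root]
    have hFN : ∀ (k : ℕ) (h : ((k : ℕ) : 𝓞 R) ∈ Algebra.adjoin ℤ ({b} : Set (𝓞 R))), F ⟨(k : 𝓞 R), h⟩ = k := by
      intro k h
      have : (⟨(k : 𝓞 R), h⟩ : Algebra.adjoin ℤ ({b} : Set (𝓞 R))) = ((k : ℕ) : Algebra.adjoin ℤ ({b} : Set (𝓞 R))) := rfl
      rw [this, map_natCast]
    have hN' : ∀ x : 𝓞 R, (N : 𝓞 R) * x ∈ Algebra.adjoin ℤ ({b} : Set (𝓞 R)) := hN
    refine ⟨{ toFun := fun x => F ⟨(N : 𝓞 R) * x, hN' x⟩ * ((N : ℕ) : ZMod q)⁻¹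
              map_one' := ?_, map_zero' := ?_, map_add' := ?_, map_mul' := ?_ }, ?_⟩
    · have h1 : F ⟨(N : 𝓞 R) * 1, hN' 1⟩ = (N : ZMod q) := by
        rw [← hFN N (natCast_mem _ N)]
        congr 1
        apply Subtype.ext
        show (N : 𝓞 R) * 1 = N
        rw [mul_one]
      rw [h1, mul_inv_cancel₀ hNq]
    · intro x z
      have h1 : F ⟨(N : 𝓞 R) * x, hN' x⟩ * F ⟨(N : 𝓞 R) * z, hN' z⟩ =
          (N : ZMod q) * F ⟨(N : 𝓞 R) * (x * z), hN' (x * z)⟩ := by
        rw [← hFN N (natCast_mem _ N), ← map_mul, ← map_mul]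
        congr 1
        apply Subtype.ext
        show (N : 𝓞 R) * x * ((N : 𝓞 R) * z) = N * (N * (x * z))
        ring
      calc F ⟨(N : 𝓞 R) * (x * z), hN' (x * z)⟩ * ((N : ℕ) : ZMod q)⁻¹ =
          (N : ZMod q) * F ⟨(N : 𝓞 R) * (x * z), hN' (x * z)⟩ * ((N : ℕ) : ZMod q)⁻¹ * ((N : ℕ) : ZMod q)⁻¹ := by
            field_simp
        _ = F ⟨(N : 𝓞 R) * x, hN' x⟩ * F ⟨(N : 𝓞 R) * z, hN' z⟩ * ((N : ℕ) : ZMod q)⁻¹ * ((N : ℕ) : ZMod q)⁻¹ := by
            rw [h1]
        _ = _ := by ring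
    · have h1 : F ⟨(N : 𝓞 R) * 0, hN' 0⟩ = 0 := by
        rw [← map_zero F]
        congr 1
        apply Subtype.ext
        show (N : 𝓞 R) * 0 = 0
        rw [mul_zero]
      rw [h1, zero_mul]
    · intro x z
      have h1 : F ⟨(N : 𝓞 R) * (x + z), hN' (x + z)⟩ = F ⟨(N : 𝓞 R) * x, hN' x⟩ + F ⟨(N : 𝓞 R) * z, hN' z⟩ := by
        rw [← map_add]
        congr 1
        apply Subtype.ext
        show (N : 𝓞 R) * (x + z) = N * x + N * z
        ring
      rw [h1, add_mul]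
    · show F ⟨(N : 𝓞 R) * b, hN' b⟩ * ((N : ℕ) : ZMod q)⁻¹ = y
      have h1 : F ⟨(N : 𝓞 R) * b, hN' b⟩ = (N : ZMod q) * y := by
        rw [← hFN N (natCast_mem _ N), ← hF, ← map_mul]
        rfl
      rw [h1]
      field_simp
  choose ψ hψ using hex
  exact Nat.card_le_card_of_injective ψ fun y z h => Subtype.ext (by rw [← hψ y, ← hψ z, h])

end Pool.Agent.H3.PO
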